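import Pool.Agent.W848.N2.Stm

/-!
# MP_061df2_co, step K4: few non-neighbours give four pairwise adjacent vertices
-/

set_option autoImplicit false

namespace Pool.Agent.W715.N2

open Pool.Agent.W848.N2

/-- At most `|D(x)|` vertices are adjacent to `x` in no direction. -/
theorem nonadj_le {V : Type} [Fintype V] (R : V → V → Prop) (hR : Deg R) (x : V) :
    {y | ¬ (R x y ∨ R y x)}.ncard ≤ {s | R x s ∧ R s x}.ncard := by
  have h1 := hR.1 x
  have h2 := hR.2 x
  have hU : ({b | R x b} ∪ {b | R b x}).ncard + ({b | R x b} ∩ {b | R b x}).ncard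
      = {b | R x b}.ncard + {b | R b x}.ncard :=
    Set.ncard_union_add_ncard_inter _ _ (Set.toFinite _) (Set.toFinite _)
  have hC : ({b | R x b} ∪ {b | R b x}).ncard + (({b | R x b} ∪ {b | R b x})ᶜ).ncard
      = Nat.card V := Set.ncard_add_ncard_compl _ (Set.toFinite _) (Set.toFinite _)
  rw [Nat.card_eq_fintype_card] at hC
  have e1 : ({b | R x b} ∪ {b | R b x})ᶜ = {y | ¬ (R x y ∨ R y x)} := by
    ext y; simp
  have e2 : ({b | R x b} ∩ {b | R b x}) = {s | R x s ∧ R s x} := rfl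
  rw [e1] at hC
  rw [e2] at hU
  omega

/-- If `X` has fewer elements than `J` then some element of `J` is not in `X`. -/
theorem exists_diff {V : Type} [Fintype V] (J X : Set V) (h : X.ncard < J.ncard) :
    ∃ v ∈ J, v ∉ X := by
  by_contra hc
  push Not at hc
  have : J.ncard ≤ X.ncard := Set.ncard_le_ncard hc (Set.toFinite _)
  omega

theorem t_K4 : Pool.Agent.W848.N2.S_K4 := by
  intro V _ R hR J g ⟨v0, h0J, h0g⟩ hg hJ
  set N : V → Set V := fun x => {y | ¬ (R x y ∨ R y x)} with hN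
  have n0 : (N v0).ncard ≤ g := (nonadj_le R hR v0).trans h0g
  obtain ⟨v1, h1J, h1⟩ := exists_diff J (N v0) (by omega)
  have a01 : R v0 v1 ∨ R v1 v0 := by
    by_contra hc; exact h1 hc
  have n1 : (N v1).ncard ≤ g :=
    (nonadj_le R hR v1).trans (hg v1 h1J ⟨v0, h0J, a01.symm⟩)
  have u1 : (N v0 ∪ N v1).ncard ≤ g + g :=
    (Set.ncard_union_le _ _).trans (Nat.add_le_add n0 n1)
  obtain ⟨v2, h2J, h2⟩ := exists_diff J (N v0 ∪ N v1) (by omega)
  have a02 : R v0 v2 ∨ R v2 v0 := by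
    by_contra hc; exact h2 (Or.inl hc)
  have a12 : R v1 v2 ∨ R v2 v1 := by
    by_contra hc; exact h2 (Or.inr hc)
  have n2 : (N v2).ncard ≤ g :=
    (nonadj_le R hR v2).trans (hg v2 h2J ⟨v0, h0J, a02.symm⟩)
  have u2 : ((N v0 ∪ N v1) ∪ N v2).ncard ≤ g + g + g :=
    (Set.ncard_union_le _ _).trans (Nat.add_le_add u1 n2)
  obtain ⟨v3, h3J, h3⟩ := exists_diff J ((N v0 ∪ N v1) ∪ N v2) (by omega)
  have a03 : R v0 v3 ∨ R v3 v0 := by
    by_contra hc; exact h3 (Or.inl (Or.inl hc))
  have a13 : R v1 v3 ∨ R v3 v1 := by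
    by_contra hc; exact h3 (Or.inl (Or.inr hc))
  have a23 : R v2 v3 ∨ R v3 v2 := by
    by_contra hc; exact h3 (Or.inr hc)
  refine ⟨![v0, v1, v2, v3], ?_, ?_⟩
  · intro i
    fin_cases i <;> simp <;> assumption
  · intro i j hij
    fin_cases i <;> fin_cases j <;> simp at hij ⊢ <;>
      first
        | exact a01 | exact a01.symm | exact a02 | exact a02.symm | exact a03 | exact a03.symm
        | exact a12 | exact a12.symm | exact a13 | exact a13.symm | exact a23 | exact a23.symm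

end Pool.Agent.W715.N2
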